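import Mathlib

/-!
# Orders of groups admitting planar functions: definitions (project AAO)
-/

namespace Pool.Agent.AAO

/-- `φ : G → N` is planar: for every `x ≠ 1` the map `y ↦ φ (x y) φ(y)⁻¹` is a bijection. -/
def Planar {G N : Type} [Group G] [Group N] (φ : G → N) : Prop :=
  ∀ x : G, x ≠ 1 → Function.Bijective fun y : G => φ (x * y) * (φ y)⁻¹

/-- `v` is the common order of two finite groups `G`, `N` (not assumed abelian) with a planar
function `G → N`. -/
def PlanarOrder (v : ℕ) : Prop :=
  ∃ (G N : Type) (_ : Group G) (_ : Group N) (_ : Finite G) (_ : Finite N),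
    Nat.card G = v ∧ Nat.card N = v ∧ ∃ φ : G → N, Planar φ

/-- the local condition: `n` is odd and every prime `r` of odd exponent in `n` is a square modulo
every other prime divisor `p` of `n` -/
def W (n : ℕ) : Prop :=
  Odd n ∧ ∀ p r : ℕ, p.Prime → r.Prime → p ∣ n → r ≠ p → Odd (n.factorization r) →
    IsSquare (r : ZMod p)

/-- the weight `2 ^ (-j ω(n))` -/
noncomputable def wt (j n : ℕ) : ℝ := (1 / 2) ^ (j * n.primeFactors.card)

open Classical in
/-- weighted counting function of `W` at `2 ^ I` -/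
noncomputable def S (j I : ℕ) : ℝ := ∑ n ∈ (Finset.Icc 1 (2 ^ I)).filter W, wt j n

open Classical in
/-- weighted logarithmic counting function of `W` at `2 ^ I` -/
noncomputable def A (j I : ℕ) : ℝ := ∑ n ∈ (Finset.Icc 1 (2 ^ I)).filter W, wt j n / n

/-- the level of the sieve -/
noncomputable def zz (K : ℝ) (I : ℕ) : ℝ := Real.exp (I / (K * Real.log (I + 2)))

/-- every prime factor of `m` is at most `z` -/
def Smooth (z : ℝ) (m : ℕ) : Prop := ∀ p : ℕ, p.Prime → p ∣ m → (p : ℝ) ≤ z

/-- every prime factor of `k` exceeds `z` -/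
def Rough (z : ℝ) (k : ℕ) : Prop := ∀ p : ℕ, p.Prime → p ∣ k → z < (p : ℝ)

end Pool.Agent.AAO
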