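import Pool.Agent.Lib_helper65.AAO.Defs

/-! # AAO: wanted statements (never imported by the final file) -/

namespace Pool.Agent.AAO

open Polynomial

/-! block NRM -/

/-- If `n` is the absolute square of an element of `ℤ[ζ_p]` and `-1` is a power of the prime `r`
modulo `p`, then the exponent of `r` in `n` is even. -/
theorem even_val (p r j n : ℕ) (hp : p.Prime) (hr : r.Prime) (hrp : r ≠ p)
    (hj : (r : ZMod p) ^ j = -1) (ζ : ℂ) (hζ : IsPrimitiveRoot ζ p) (f : ℤ[X]) (hn : n ≠ 0)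
    (h : aeval ζ f * (starRingEnd ℂ) (aeval ζ f) = (n : ℂ)) : Even (n.factorization r) := sorry

/-! block MTX -/

/-- the determinant of the planar function on the representation induced from a subgroup of
prime order -/
theorem exists_norm {G N : Type} [Group G] [Group N] [Finite G] [Finite N] (φ : G → N)
    (hφ : Planar φ) (hc : Nat.card G = Nat.card N) (p : ℕ) (hp : p.Prime) (hpN : p ∣ Nat.card N)
    (ζ : ℂ) (hζ : IsPrimitiveRoot ζ p) : ∃ f : ℤ[X],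
      aeval ζ f * (starRingEnd ℂ) (aeval ζ f) = ((Nat.card N ^ (Nat.card N / p) : ℕ) : ℂ) := sorry

/-! block LOC -/

theorem planar_odd {G N : Type} [Group G] [Group N] [Finite G] [Finite N] (φ : G → N)
    (hφ : Planar φ) (hc : Nat.card G = Nat.card N) : Odd (Nat.card N) := sorry

theorem planarOrder_W (v : ℕ) (h : PlanarOrder v) : W v := sorry

/-! block SEL -/

open Classical in
theorem rough_ap (q a : ℕ) (hq : 0 < q) (ha : a.Coprime q) (z X : ℝ) (hz : 2 ≤ z) (hX : 0 ≤ X) :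
    (((Finset.Icc 1 ⌊X⌋₊).filter (fun k => k ≡ a [MOD q] ∧ Rough z k)).card : ℝ) ≤
      X / (q.totient * Real.log z) + z ^ 6 := sorry

/-! block CLS -/

open Classical in
theorem card_classes (P : Finset ℕ) (hP : ∀ p ∈ P, p.Prime ∧ p ≠ 2) :
    ((Finset.range (∏ p ∈ P, p)).filter
      (fun a => ∀ p ∈ P, ¬ p ∣ a ∧ IsSquare (a : ZMod p))).card * 2 ^ P.card =
        (∏ p ∈ P, p).totient := sorry

open Classical in
theorem rough_sq (P : Finset ℕ) (z X : ℝ) (hz : 2 ≤ z) (hX : 0 ≤ X)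
    (hP : ∀ p ∈ P, p.Prime ∧ p ≠ 2 ∧ (p : ℝ) ≤ z) :
    (((Finset.Icc 1 ⌊X⌋₊).filter
      (fun k => (∀ p ∈ P, IsSquare (k : ZMod p)) ∧ Rough z k)).card : ℝ) ≤
      (1 / 2) ^ P.card * (X / Real.log z) + (∏ p ∈ P, p : ℕ) * z ^ 6 := sorry

/-! block MER -/

theorem mer : ∃ C : ℝ, 0 < C ∧ ∀ x : ℝ, 1 ≤ x →
    ∑ p ∈ (Finset.Icc 1 ⌊x⌋₊).filter Nat.Prime, (1 : ℝ) / p ≤
      C + C * Real.log (1 + Real.log x) := sorry

/-! block RNK -/

open Classical in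
theorem smooth_tail : ∃ K₀ : ℝ, 1 ≤ K₀ ∧ ∀ K : ℝ, K₀ ≤ K → ∃ C : ℝ, 0 < C ∧ ∀ I : ℕ, 1 ≤ I →
    ∑ m ∈ (Finset.Icc 1 (2 ^ I)).filter
      (fun m : ℕ => (2 : ℝ) ^ ((I : ℝ) / 4) < m ∧ Smooth (zz K I) m), (1 : ℝ) / m ≤ C / I := sorry

/-! block DEC -/

theorem exists_decomp (z : ℝ) (n : ℕ) (hn : n ≠ 0) : ∃ m k : ℕ, n = m * k ∧ Smooth z m ∧
    Rough z k := sorry

theorem W_decomp (z : ℝ) (m k : ℕ) (hm : Smooth z m) (hk : Rough z k) (h : W (m * k)) :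
    W m ∧ ∀ p ∈ m.primeFactors, IsSquare (k : ZMod p) := sorry

theorem wt_decomp (z : ℝ) (j m k : ℕ) (hm : Smooth z m) (hk : Rough z k) (hmk : m * k ≠ 0) :
    wt j (m * k) ≤ wt j m := sorry

/-! block STP -/

theorem step : ∃ C : ℝ, 0 < C ∧ ∀ j I : ℕ, 1 ≤ I →
    S j I ≤ C * 2 ^ I * (Real.log (I + 2) / I) * A (j + 1) I := sorry

/-! block BAS -/

theorem base : ∃ C : ℝ, 0 < C ∧ ∀ J I : ℕ, 1 ≤ I →
    A J I ≤ Real.exp ((1 / 2) ^ J * (C + C * Real.log (I + 2))) := sorry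

/-! block ITR -/

theorem recA : ∃ C : ℝ, 0 < C ∧ ∀ j I : ℕ, 1 ≤ I →
    A j I ≤ C * Real.log (I + 2) ^ 2 * A (j + 1) I := sorry

theorem total : ∃ C : ℝ, 0 < C ∧ ∀ I : ℕ, 1 ≤ I →
    S 0 I ≤ 2 ^ I / I * Real.exp (C * (1 + Real.log (Real.log (I + 2)) ^ 2)) := sorry

/-! block FIN -/

theorem final : ∃ C : ℝ, ∀ x : ℝ, 16 ≤ x →
    (Set.ncard {v : ℕ | (v : ℝ) ≤ x ∧ PlanarOrder v} : ℝ) ≤
      x / Real.log x * Real.exp (C * Real.log (Real.log (Real.log x)) ^ 2) := sorry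

end Pool.Agent.AAO
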